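import Pool.Agent.N202.NC.Stm
import Pool.Agent.N202.TB.Core1
import Pool.Agent.N202.TB.Bracket
import Pool.Agent.N738.TB.Hodge

/-!
# Project NC (helper202), part PR (helper891): the projector to the Lie algebra of the Hodge group
-/

set_option autoImplicit false
set_option linter.unusedSectionVars false

namespace Pool.Agent.N891.NC

open Matrix
open Pool.Agent.N996.BP Pool.Agent.N202.TB Pool.Agent.N202.NC
open Pool.Agent.N618.TB (dplin_ dptwo_)
open Pool.Agent.N738.TB (kill_span kill_cast)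

variable {ι : Type} [Fintype ι] [DecidableEq ι] (H : HData ι)

/-- the Lie algebra of the Hodge group -/
def lieW : Submodule ℚ (Matrix ι ι ℚ) where
  carrier := {y | Kill H ℚ y}
  zero_mem' := by
    intro n a _
    have h : dp (Fin (n + 1)) (0 : Matrix ι ι ℚ) = 0 := by ext v w; simp [dp]
    rw [h, Matrix.zero_mulVec]
  add_mem' {x y} hx hy := by
    intro n a ha
    have h := dplin_ ℚ ι (Fin (n + 1)) 1 x y
    rw [one_smul, one_smul] at h
    rw [h, Matrix.add_mulVec, hx n a ha, hy n a ha, add_zero]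
  smul_mem' c y hy := by
    intro n a ha
    have h := dplin_ ℚ ι (Fin (n + 1)) c 0 y
    have h0 : dp (Fin (n + 1)) (0 : Matrix ι ι ℚ) = 0 := by ext v w; simp [dp]
    rw [zero_add, h0, zero_add] at h
    rw [h, Matrix.smul_mulVec, hy n a ha, smul_zero]

variable {H}

theorem mem_lieW {y : Matrix ι ι ℚ} : y ∈ lieW H ↔ Kill H ℚ y := Iff.rfl

theorem kill_skew {y : Matrix ι ι ℚ} (hy : Kill H ℚ y) : y * H.Qir + H.Qir * yᵀ = 0 := by
  have h1 := hy 1 _ (two_BB H (x := 1) (fun t _ => by rw [cQ_one, Matrix.mul_one, Matrix.one_mul]))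
  have h2 := dptwo_ ℚ ι y H.Qir
  have h3 : aL ℚ (fun w : Fin (1 + 1) → ι => ((1 : Matrix ι ι ℚ) * H.Qir) (w 0) (w 1)) =
      fun w : Fin 2 → ι => H.Qir (w 0) (w 1) := by
    funext w
    unfold aL
    rw [Matrix.one_mul, Rat.cast_id]
  rw [h3] at h1
  have h4 := h2.symm.trans h1
  ext i j
  have h5 := congrFun h4 ![i, j]
  simpa using h5

theorem kill_bracket {x y : Matrix ι ι ℚ} (hx : Kill H ℚ x) (hy : Kill H ℚ y) :
    Kill H ℚ (x * y - y * x) := by
  intro n a ha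
  rw [dp_bracket, Matrix.sub_mulVec, ← Matrix.mulVec_mulVec, ← Matrix.mulVec_mulVec, hx n a ha,
    hy n a ha, Matrix.mulVec_zero, Matrix.mulVec_zero, sub_zero]

theorem kill_conj {y : Matrix ι ι ℂ} (hy : Kill H ℂ y) {t : ℂ} (ht : t ≠ 0) :
    Kill H ℂ (H.l t * y * H.l t⁻¹) := by
  intro n a ha
  have h1 : aL ℂ a = ca a := rfl
  rw [← dp_conj (H.l_inv ht), ← Matrix.mulVec_mulVec, ← Matrix.mulVec_mulVec, h1,
    ha t⁻¹ (inv_ne_zero ht), ← h1, hy n a ha, Matrix.mulVec_zero]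

/-- positivity -/
theorem tr_ne {y : Matrix ι ι ℚ} (hy : Kill H ℚ y) (hy0 : y ≠ 0) :
    (H.D.C * y.map (fun x : ℚ => (x : ℝ)) * H.D.Ci * y.map (fun x : ℚ => (x : ℝ))).trace ≠ 0 := by
  obtain ⟨Y, hY⟩ : ∃ Y : Matrix ι ι ℝ, Y = y.map (fun x : ℚ => (x : ℝ)) := ⟨_, rfl⟩
  rw [← hY]
  have hs : Y * H.D.Qi + H.D.Qi * Yᵀ = 0 := by
    have h1 : (y * H.Qir + H.Qir * yᵀ).map (Rat.castHom ℝ) = (0 : Matrix ι ι ℚ).map (Rat.castHom ℝ) := by
      rw [kill_skew hy]
    rw [Matrix.map_add _ (map_add _), Matrix.map_mul, Matrix.map_mul, Matrix.transpose_map,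
      Matrix.map_zero _ (map_zero _)] at h1
    rw [H.hQir, hY]
    exact h1
  have hQQ : H.D.Qi * H.D.Q = 1 := H.D.hQ'
  have h2 : H.D.Qi * Yᵀ * H.D.Q = -Y := by
    have h3 : H.D.Qi * Yᵀ = -(Y * H.D.Qi) := eq_neg_of_add_eq_zero_right hs
    rw [h3, Matrix.neg_mul, Matrix.mul_assoc, hQQ, Matrix.mul_one]
  have hCC : H.D.C * H.D.Ci = 1 := H.D.hC
  -- the inverse of `S`
  have hMM : H.D.Mi * H.D.Miᵀ = H.D.Ci * H.D.Qi := by
    have h3 : H.D.Mᵀ * H.D.M * (H.D.Mi * H.D.Miᵀ) = 1 := H.D.S_Si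
    have h4 : H.D.Mᵀ * H.D.M * (H.D.Ci * H.D.Qi) = 1 := by
      rw [H.D.hS]
      calc H.D.Q * H.D.C * (H.D.Ci * H.D.Qi) = H.D.Q * (H.D.C * H.D.Ci) * H.D.Qi := by
            simp only [Matrix.mul_assoc]
        _ = 1 := by rw [hCC, Matrix.mul_one, H.D.hQ]
    have h5 : (H.D.Mi * H.D.Miᵀ) * (H.D.Mᵀ * H.D.M) = 1 := mul_eq_one_comm.1 h3
    calc H.D.Mi * H.D.Miᵀ = (H.D.Mi * H.D.Miᵀ) * (H.D.Mᵀ * H.D.M * (H.D.Ci * H.D.Qi)) := by
          rw [h4, Matrix.mul_one]
      _ = ((H.D.Mi * H.D.Miᵀ) * (H.D.Mᵀ * H.D.M)) * (H.D.Ci * H.D.Qi) := by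
          simp only [Matrix.mul_assoc]
      _ = _ := by rw [h5, Matrix.one_mul]
  obtain ⟨Z, hZ⟩ : ∃ Z : Matrix ι ι ℝ, Z = H.D.M * Y * H.D.Mi := ⟨_, rfl⟩
  have hZ0 : Z ≠ 0 := by
    intro h
    apply hy0
    have h3 : Y = 0 := by
      have h4 : H.D.Mi * Z * H.D.M = Y := by
        rw [hZ]
        calc H.D.Mi * (H.D.M * Y * H.D.Mi) * H.D.M = (H.D.Mi * H.D.M) * Y * (H.D.Mi * H.D.M) := by
              simp only [Matrix.mul_assoc]
          _ = Y := by rw [H.D.hM', Matrix.one_mul, Matrix.mul_one]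
      rw [← h4, h, Matrix.mul_zero, Matrix.zero_mul]
    ext i j
    have h4 := congrFun (congrFun h3 i) j
    rw [hY, Matrix.map_apply] at h4
    have h5 : ((y i j : ℚ) : ℝ) = 0 := h4
    exact_mod_cast h5
  have h6 : (Z * Zᵀ).trace = -(H.D.C * Y * H.D.Ci * Y).trace := by
    have h7 : Z * Zᵀ = H.D.M * (Y * (H.D.Mi * H.D.Miᵀ) * Yᵀ * H.D.Mᵀ) := by
      rw [hZ, Matrix.transpose_mul, Matrix.transpose_mul]
      simp only [Matrix.mul_assoc]
    rw [h7, Matrix.trace_mul_comm, hMM]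
    have h8 : Y * (H.D.Ci * H.D.Qi) * Yᵀ * H.D.Mᵀ * H.D.M =
        Y * H.D.Ci * (H.D.Qi * Yᵀ * H.D.Q) * H.D.C := by
      calc Y * (H.D.Ci * H.D.Qi) * Yᵀ * H.D.Mᵀ * H.D.M =
          Y * (H.D.Ci * H.D.Qi) * Yᵀ * (H.D.Mᵀ * H.D.M) := by simp only [Matrix.mul_assoc]
        _ = _ := by
          rw [H.D.hS]
          simp only [Matrix.mul_assoc]
    rw [h8, h2, Matrix.mul_neg, Matrix.neg_mul, Matrix.trace_neg, Matrix.trace_mul_comm]
    congr 2
    simp only [Matrix.mul_assoc]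
  intro h
  rw [h, neg_zero] at h6
  apply hZ0
  ext i j
  have h9 : ∑ i, ∑ j, Z i j * Z i j = 0 := by
    rw [← h6, Matrix.trace]
    refine Finset.sum_congr rfl fun i _ => ?_
    rw [Matrix.diag_apply, Matrix.mul_apply]
    rfl
  have h10 := (Finset.sum_eq_zero_iff_of_nonneg
    (fun i _ => Finset.sum_nonneg fun j _ => mul_self_nonneg (Z i j))).1 h9 i (Finset.mem_univ i)
  have h11 := (Finset.sum_eq_zero_iff_of_nonneg (fun j _ => mul_self_nonneg (Z i j))).1 h10 j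
    (Finset.mem_univ j)
  exact mul_self_eq_zero.1 h11

/-- the trace form is nondegenerate -/
theorem exists_tr {y : Matrix ι ι ℚ} (hy : Kill H ℚ y) (hy0 : y ≠ 0) :
    ∃ z : Matrix ι ι ℚ, Kill H ℚ z ∧ (z * y).trace ≠ 0 := by
  by_contra hcon
  push Not at hcon
  obtain ⟨y', hy'⟩ : ∃ y' : Matrix ι ι ℂ, y' = y.map (Rat.castHom ℂ) := ⟨_, rfl⟩
  have hyk : Kill H ℂ y' := by
    rw [hy']
    exact kill_cast H ℂ y hy
  have h1 := kill_span H _ (kill_conj hyk Complex.I_ne_zero)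
  have h2 : ∀ N ∈ Submodule.span ℂ {y : Matrix ι ι ℂ | ∃ y0 : Matrix ι ι ℚ, Kill H ℚ y0 ∧
      y0.map (Rat.castHom ℂ) = y}, (N * y').trace = 0 := by
    intro N hN
    induction hN using Submodule.span_induction with
    | mem x hx =>
      obtain ⟨z, hz, rfl⟩ := hx
      rw [hy', ← Matrix.map_mul]
      have h3 := congrArg (Rat.castHom ℂ) (hcon z hz)
      rw [map_zero] at h3
      rw [← h3, Matrix.trace, Matrix.trace, map_sum]
      rfl
    | zero => rw [Matrix.zero_mul, Matrix.trace_zero]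
    | add a b _ _ ha hb => rw [Matrix.add_mul, Matrix.trace_add, ha, hb, add_zero]
    | smul c a _ ha => rw [Matrix.smul_mul, Matrix.trace_smul, ha, smul_zero]
  have h3 := h2 _ h1
  apply tr_ne hy hy0
  have hC : H.l Complex.I = H.D.C.map (algebraMap ℝ ℂ) := H.hC.symm
  have hCi : H.l Complex.I⁻¹ = H.D.Ci.map (algebraMap ℝ ℂ) := by
    have h4 : H.D.C.map (algebraMap ℝ ℂ) * H.D.Ci.map (algebraMap ℝ ℂ) = 1 := by
      rw [← Matrix.map_mul, H.D.hC, Matrix.map_one _ (map_zero _) (map_one _)]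
    have h5 := H.l_inv' Complex.I_ne_zero
    calc H.l Complex.I⁻¹ = H.l Complex.I⁻¹ * (H.D.C.map (algebraMap ℝ ℂ) *
          H.D.Ci.map (algebraMap ℝ ℂ)) := by rw [h4, Matrix.mul_one]
      _ = (H.l Complex.I⁻¹ * H.l Complex.I) * H.D.Ci.map (algebraMap ℝ ℂ) := by
          rw [hC, Matrix.mul_assoc]
      _ = _ := by rw [h5, Matrix.one_mul]
  have hyy : y' = (y.map (fun x : ℚ => (x : ℝ))).map (algebraMap ℝ ℂ) := by
    rw [hy', Matrix.map_map]
    ext i j
    simp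
  rw [hC, hCi, hyy, ← Matrix.map_mul, ← Matrix.map_mul, ← Matrix.map_mul] at h3
  have h6 : ((H.D.C * y.map (fun x : ℚ => (x : ℝ)) * H.D.Ci * y.map (fun x : ℚ => (x : ℝ))).map
      (algebraMap ℝ ℂ)).trace = algebraMap ℝ ℂ
        (H.D.C * y.map (fun x : ℚ => (x : ℝ)) * H.D.Ci * y.map (fun x : ℚ => (x : ℝ))).trace := by
    rw [Matrix.trace, Matrix.trace, map_sum]
    rfl
  rw [h6] at h3
  exact (map_eq_zero _).1 h3

/-- the trace form -/
noncomputable def trf (ι : Type) [Fintype ι] [DecidableEq ι] : LinearMap.BilinForm ℚ (Matrix ι ι ℚ) :=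
  LinearMap.mk₂ ℚ (fun x y => (x * y).trace)
    (fun x y z => by rw [Matrix.add_mul, Matrix.trace_add])
    (fun c x y => by rw [Matrix.smul_mul, Matrix.trace_smul])
    (fun x y z => by rw [Matrix.mul_add, Matrix.trace_add])
    (fun c x y => by rw [Matrix.mul_smul, Matrix.trace_smul])

theorem trf_apply (x y : Matrix ι ι ℚ) : trf ι x y = (x * y).trace := rfl

theorem trf_symm (x y : Matrix ι ι ℚ) : trf ι x y = trf ι y x := by
  rw [trf_apply, trf_apply, Matrix.trace_mul_comm]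

theorem t_PR : S_PR := by
  intro ι _ _ H deg hdeg
  have hrefl : (trf ι).IsRefl := fun x y h => by rw [trf_symm, h]
  have hnd : ((trf ι).restrict (lieW H)).Nondegenerate := by
    have h1 : ∀ x : lieW H, (∀ y : lieW H, ((trf ι).restrict (lieW H)) x y = 0) → x = 0 := by
      intro x hx
      by_contra hne
      have hx0 : (x : Matrix ι ι ℚ) ≠ 0 := fun h => hne (Subtype.ext h)
      obtain ⟨z, hz, hzy⟩ := exists_tr x.2 hx0
      apply hzy
      have h2 : trf ι x z = 0 := hx ⟨z, hz⟩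
      rw [trf_symm, trf_apply] at h2
      exact h2
    refine ⟨h1, fun x hx => h1 x fun y => ?_⟩
    have h2 : trf ι y x = 0 := hx y
    show trf ι x y = 0
    rw [trf_symm]
    exact h2
  have hc := LinearMap.BilinForm.isCompl_orthogonal_of_restrict_nondegenerate hrefl hnd
  obtain ⟨V, hV⟩ : ∃ V, V = (trf ι).orthogonal (lieW H) := ⟨_, rfl⟩
  rw [← hV] at hc
  have hVm : ∀ x : Matrix ι ι ℚ, x ∈ V ↔ ∀ w, Kill H ℚ w → (w * x).trace = 0 := by
    intro x
    rw [hV, LinearMap.BilinForm.mem_orthogonal_iff]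
    rfl
  have hVs : ∀ y, Kill H ℚ y → ∀ x ∈ V, y * x - x * y ∈ V := by
    intro y hy x hx
    rw [hVm] at hx ⊢
    intro w hw
    have h1 := hx _ (kill_bracket hw hy)
    have e : (w * (y * x - x * y)).trace = ((w * y - y * w) * x).trace := by
      rw [Matrix.mul_sub, Matrix.sub_mul, Matrix.trace_sub, Matrix.trace_sub, ← Matrix.mul_assoc,
        ← Matrix.mul_assoc]
      congr 1
      rw [Matrix.trace_mul_comm, Matrix.mul_assoc]
    rw [e]
    exact h1
  refine ⟨(lieW H).projection V hc, fun x => Submodule.projection_apply_mem hc x,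
    fun x hx => Submodule.projection_apply_left hc ⟨x, hx⟩, fun x hx => ?_, fun y hy x => ?_⟩
  · rw [Submodule.projection_apply_eq_zero_iff, hVm]
    intro w hw
    rw [Matrix.trace]
    refine Finset.sum_eq_zero fun i _ => ?_
    rw [Matrix.diag_apply, Matrix.mul_apply]
    refine Finset.sum_eq_zero fun j _ => ?_
    by_cases h : w i j = 0
    · rw [h, zero_mul]
    · rw [hx j i (hdeg w hw i j h).symm, mul_zero]
  · obtain ⟨π, hπ⟩ : ∃ π, π = (lieW H).projection V hc := ⟨_, rfl⟩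
    rw [← hπ]
    have h1 : ∀ x, π x ∈ lieW H := fun x => by
      rw [hπ]
      exact Submodule.projection_apply_mem hc x
    have h2 : ∀ x ∈ lieW H, π x = x := fun x hx => by
      rw [hπ]
      exact Submodule.projection_apply_left hc ⟨x, hx⟩
    have h3 : ∀ x ∈ V, π x = 0 := fun x hx => by
      rw [hπ]
      exact (Submodule.projection_apply_eq_zero_iff hc).2 hx
    have h4 : ∀ x, x - π x ∈ V := fun x => by
      refine (Submodule.projection_apply_eq_zero_iff hc).1 ?_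
      rw [← hπ, map_sub, h2 _ (h1 x), sub_self]
    have h6 : y * x - x * y = (y * π x - π x * y) + (y * (x - π x) - (x - π x) * y) := by
      rw [Matrix.mul_sub, Matrix.sub_mul]
      abel
    rw [h6, map_add, h2 _ (kill_bracket hy (h1 x)), h3 _ (hVs y hy _ (h4 x)), add_zero]

end Pool.Agent.N891.NC
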